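import Mathlib

set_option autoImplicit false
set_option linter.unusedSectionVars false

/-!
(Connected abelian)-by-profinite groups are topologically invariably generated.
-/

namespace Pool.Agent.V1128.TIG

/-- Jordan's lemma. -/
theorem jordan {F : Type} [Group F] [Finite F] (K : Subgroup F) (h : ∀ x, ∃ g, g * x * g⁻¹ ∈ K) : K = ⊤ := by
  classical
  have _ : Fintype F := Fintype.ofFinite F
  have _ : Fintype (F ⧸ K) := Fintype.ofFinite _
  have _ : ∀ a : F, Fintype (MulAction.fixedBy (F ⧸ K) a) := fun a => Fintype.ofFinite _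
  have _ : Fintype (Quotient (MulAction.orbitRel F (F ⧸ K))) := Fintype.ofFinite _
  have h1 := MulAction.sum_card_fixedBy_eq_card_orbits_mul_card_group F (F ⧸ K)
  have h2 : Fintype.card (Quotient (MulAction.orbitRel F (F ⧸ K))) = 1 := by
    rw [Fintype.card_eq_one_iff_nonempty_unique]
    have : Subsingleton (Quotient (MulAction.orbitRel F (F ⧸ K))) :=
      MulAction.pretransitive_iff_subsingleton_quotient F (F ⧸ K) |>.mp inferInstance
    exact ⟨{ default := Quotient.mk'' (1 : F), uniq := fun x => Subsingleton.elim _ _ }⟩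
  rw [h2, one_mul] at h1
  have h3 : ∀ a : F, 1 ≤ Fintype.card (MulAction.fixedBy (F ⧸ K) a) := by
    intro a
    obtain ⟨g, hg⟩ := h a
    have h4 : ((g⁻¹ : F) : F ⧸ K) ∈ MulAction.fixedBy (F ⧸ K) a := by
      rw [MulAction.mem_fixedBy]
      change ((a * g⁻¹ : F) : F ⧸ K) = _
      symm
      rw [QuotientGroup.eq]
      have : g⁻¹⁻¹ * (a * g⁻¹) = g * a * g⁻¹ := by group
      rw [this]
      exact hg
    exact Fintype.card_pos_iff.mpr ⟨⟨_, h4⟩⟩
  have h4 : Fintype.card (MulAction.fixedBy (F ⧸ K) (1 : F)) = Fintype.card (F ⧸ K) := by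
    apply Fintype.card_congr
    exact
      { toFun := fun x => x.1
        invFun := fun x => ⟨x, by rw [MulAction.mem_fixedBy, one_smul]⟩
        left_inv := fun _ => rfl
        right_inv := fun _ => rfl }
  have h5 : Fintype.card (F ⧸ K) ≤ 1 := by
    by_contra hcon
    push Not at hcon
    have h6 : ∑ a : F, 1 < ∑ a : F, Fintype.card (MulAction.fixedBy (F ⧸ K) a) := by
      apply Finset.sum_lt_sum (fun a _ => h3 a)
      exact ⟨1, Finset.mem_univ _, by rw [h4]; exact hcon⟩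
    rw [h1, Finset.sum_const, Finset.card_univ, smul_eq_mul, mul_one] at h6
    exact lt_irrefl _ h6
  rw [← Subgroup.index_eq_one, Subgroup.index, Nat.card_eq_fintype_card]
  exact le_antisymm h5 (Fintype.card_pos_iff.mpr ⟨((1 : F) : F ⧸ K)⟩)

theorem closed_mul {G : Type} [Group G] [TopologicalSpace G] [IsTopologicalGroup G] [CompactSpace G] [T2Space G]
    {H N : Subgroup G} (hH : IsClosed (H : Set G)) (hN : IsClosed (N : Set G)) (hn : N.Normal) :
    IsClosed ((H ⊔ N : Subgroup G) : Set G) := by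
  have h1 : ((H ⊔ N : Subgroup G) : Set G) = (fun p : G × G => p.1 * p.2) '' ((H : Set G) ×ˢ (N : Set G)) := by
    ext x
    rw [SetLike.mem_coe, Subgroup.mem_sup_of_normal_right]
    constructor
    · rintro ⟨y, hy, z, hz, rfl⟩
      exact ⟨(y, z), ⟨hy, hz⟩, rfl⟩
    · rintro ⟨⟨y, z⟩, ⟨hy, hz⟩, rfl⟩
      exact ⟨y, hy, z, hz, rfl⟩
  rw [h1]
  exact ((hH.isCompact.prod hN.isCompact).image continuous_mul).isClosed

/-- The profinite part. -/
theorem sup_eq_top {G : Type} [Group G] [TopologicalSpace G] [IsTopologicalGroup G] [CompactSpace G] [T2Space G]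
    {H N : Subgroup G} (hH : IsClosed (H : Set G)) (hN : IsClosed (N : Set G)) (hn : N.Normal)
    (htd : TotallyDisconnectedSpace (G ⧸ N)) (h : ∀ x, ∃ g, g * x * g⁻¹ ∈ H) : H ⊔ N = ⊤ := by
  rw [Subgroup.eq_top_iff']
  intro x
  by_contra hx
  -- the complement of the image
  have hcl := closed_mul hH hN hn
  let π : G →* G ⧸ N := QuotientGroup.mk' N
  have hπ : Continuous π := QuotientGroup.continuous_mk
  have hπo : IsOpenMap π := QuotientGroup.isOpenMap_coe
  let O : Set (G ⧸ N) := {y | π x * y ∉ (H.map π : Set (G ⧸ N))}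
  have hcomap : (H.map π).comap π = H ⊔ N := by
    rw [Subgroup.comap_map_eq, QuotientGroup.ker_mk']
  have hHcl : IsClosed ((H.map π : Subgroup (G ⧸ N)) : Set (G ⧸ N)) := by
    have _ : T2Space (G ⧸ N) := by
      have _ : Fact (IsClosed (N : Set G)) := ⟨hN⟩
      have : T1Space (G ⧸ N) := inferInstance
      infer_instance
    rw [Subgroup.coe_map]
    exact (hH.isCompact.image hπ).isClosed
  have hO : IsOpen O := by
    have h1 : Continuous fun y : G ⧸ N => π x * y := continuous_const_mul _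
    exact (hHcl.isOpen_compl).preimage h1
  have h1O : (1 : G ⧸ N) ∈ O := by
    change π x * 1 ∉ _
    rw [mul_one]
    intro h1
    have h2 : x ∈ (H.map π).comap π := h1
    rw [hcomap] at h2
    exact hx h2
  obtain ⟨U, hU⟩ := ProfiniteGrp.exist_openNormalSubgroup_sub_open_nhds_of_one hO h1O
  let V : Subgroup (G ⧸ N) := U.toSubgroup
  have hVn : V.Normal := U.isNormal'
  have hVo : IsOpen (V : Set (G ⧸ N)) := U.isOpen'
  have hfin : Finite ((G ⧸ N) ⧸ V) := Subgroup.quotient_finite_of_isOpen _ hVo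
  let φ : G →* (G ⧸ N) ⧸ V := (QuotientGroup.mk' V).comp π
  have hφs : Function.Surjective φ := (QuotientGroup.mk'_surjective V).comp (QuotientGroup.mk'_surjective N)
  have h2 : H.map φ = ⊤ := by
    apply jordan
    intro y
    obtain ⟨z, rfl⟩ := hφs y
    obtain ⟨g, hg⟩ := h z
    exact ⟨φ g, ⟨_, hg, by rw [map_mul, map_mul, map_inv]⟩⟩
  have h3 : φ x ∈ H.map φ := by rw [h2]; trivial
  obtain ⟨y, hy, hyx⟩ := h3
  have h4 : (π x)⁻¹ * π y ∈ V := by
    rw [← QuotientGroup.eq]
    exact hyx.symm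
  have h5 : (π x)⁻¹ * π y ∈ O := hU h4
  apply h5
  rw [mul_inv_cancel_left]
  exact ⟨y, hy, rfl⟩

theorem back {G : Type} [Group G] [TopologicalSpace G] [IsTopologicalGroup G] [CompactSpace G] [T2Space G]
    {H N : Subgroup G} (hH : IsClosed (H : Set G)) (hN : IsClosed (N : Set G)) (hn : N.Normal)
    (hab : ∀ a ∈ N, ∀ b ∈ N, a * b = b * a)
    (htd : TotallyDisconnectedSpace (G ⧸ N)) (h : ∀ x, ∃ g, g * x * g⁻¹ ∈ H) : H = ⊤ := by
  have h1 := sup_eq_top hH hN hn htd h
  have hnorm : (H ⊓ N).Normal := by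
    refine ⟨fun a ha g => ?_⟩
    have hg : g ∈ H ⊔ N := by rw [h1]; trivial
    obtain ⟨y, hy, z, hz, rfl⟩ := Subgroup.mem_sup_of_normal_right.mp hg
    have h2 : y * z * a * (y * z)⁻¹ = y * a * y⁻¹ := by
      have h3 : z * a = a * z := hab z hz a ha.2
      calc y * z * a * (y * z)⁻¹ = y * (z * a) * z⁻¹ * y⁻¹ := by group
        _ = y * a * y⁻¹ := by rw [h3]; group
    rw [h2]
    exact ⟨H.mul_mem (H.mul_mem hy ha.1) (H.inv_mem hy), hn.conj_mem a ha.2 y⟩
  have hle : N ≤ H := by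
    intro a ha
    obtain ⟨g, hg⟩ := h a
    have h2 : g * a * g⁻¹ ∈ H ⊓ N := ⟨hg, hn.conj_mem a ha g⟩
    have h3 := hnorm.conj_mem _ h2 g⁻¹
    have h4 : g⁻¹ * (g * a * g⁻¹) * g⁻¹⁻¹ = a := by group
    rw [h4] at h3
    exact h3.1
  rw [← h1, sup_eq_left.mpr hle]

end Pool.Agent.V1128.TIG
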