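import Mathlib

set_option autoImplicit false
set_option linter.unusedSectionVars false

/-!
The quotient by the identity component.
-/

namespace Pool.Agent.V1128.TIG

theorem conn_normal (G : Type) [Group G] [TopologicalSpace G] [IsTopologicalGroup G] :
    (Subgroup.connectedComponentOfOne G).Normal := by
  refine ⟨fun n hn g => ?_⟩
  have hc : Continuous fun x : G => g * x * g⁻¹ := by fun_prop
  have h1 := hc.image_connectedComponent_subset 1 ⟨n, hn, rfl⟩
  show g * n * g⁻¹ ∈ connectedComponent (1 : G)
  simpa using h1

theorem conn_td (G : Type) [Group G] [TopologicalSpace G] [IsTopologicalGroup G] :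
    TotallyDisconnectedSpace (G ⧸ Subgroup.connectedComponentOfOne G) := by
  set G0 : Subgroup G := Subgroup.connectedComponentOfOne G with hG0
  have hnorm : G0.Normal := conn_normal G
  have hco : Topology.IsCoinducing (QuotientGroup.mk : G → G ⧸ G0) :=
    (QuotientGroup.isQuotientMap_mk (N := G0)).isCoinducing
  have hfib : ∀ y : G ⧸ G0, IsConnected ((QuotientGroup.mk : G → G ⧸ G0) ⁻¹' {y}) := by
    intro y
    obtain ⟨a, rfl⟩ := QuotientGroup.mk_surjective y
    have h1 : (QuotientGroup.mk : G → G ⧸ G0) ⁻¹' {(a : G ⧸ G0)} =
        (fun x => a * x) '' connectedComponent (1 : G) := by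
      ext x
      simp only [Set.mem_preimage, Set.mem_singleton_iff, Set.mem_image]
      constructor
      · intro hx
        refine ⟨a⁻¹ * x, ?_, by group⟩
        exact QuotientGroup.eq.1 hx.symm
      · rintro ⟨z, hz, rfl⟩
        refine (QuotientGroup.eq.2 ?_).symm
        have : a⁻¹ * (a * z) = z := by group
        rw [this]; exact hz
    rw [h1]
    exact isConnected_connectedComponent.image _ (by fun_prop)
  rw [totallyDisconnectedSpace_iff_connectedComponent_one]
  have h1 := hco.image_connectedComponent hfib 1
  have h2 : ((1 : G) : G ⧸ G0) = 1 := rfl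
  rw [h2] at h1
  rw [← h1]
  ext y
  simp only [Set.mem_image, Set.mem_singleton_iff]
  constructor
  · rintro ⟨x, hx, rfl⟩
    exact (QuotientGroup.eq_one_iff x).2 hx
  · rintro rfl
    exact ⟨1, mem_connectedComponent, rfl⟩

end Pool.Agent.V1128.TIG
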