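import Mathlib

set_option autoImplicit false

/-!
Compact Lie algebras: maximal abelian subalgebras.
-/

namespace Pool.Agent.V1128.TIG

open scoped RealInnerProductSpace

variable {V : Type} [NormedAddCommGroup V] [InnerProductSpace ℝ V] [FiniteDimensional ℝ V]

/-- A Lie bracket with an invariant inner product. -/
structure LieB (br : V →ₗ[ℝ] V →ₗ[ℝ] V) : Prop where
  sk : ∀ x, br x x = 0
  inv : ∀ x y z, ⟪br x y, z⟫ = ⟪x, br y z⟫
  jac : ∀ x y z, br x (br y z) = br (br x y) z + br y (br x z)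

/-- Self-centralizing subspaces, that is, maximal abelian subalgebras. -/
def MA (br : V →ₗ[ℝ] V →ₗ[ℝ] V) (T : Submodule ℝ V) : Prop := ∀ x, x ∈ T ↔ ∀ t ∈ T, br t x = 0

variable {br : V →ₗ[ℝ] V →ₗ[ℝ] V} (hb : LieB br)

include hb

omit [FiniteDimensional ℝ V] in
theorem LieB.neg (x y : V) : br x y = - br y x := by
  have h := hb.sk (x + y)
  rw [map_add, map_add, LinearMap.add_apply, LinearMap.add_apply, hb.sk, hb.sk, zero_add, add_zero,
    add_comm] at h
  exact eq_neg_of_add_eq_zero_left h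

omit [FiniteDimensional ℝ V] in
theorem LieB.skew (x y z : V) : ⟪br x y, z⟫ = - ⟪y, br x z⟫ := by
  rw [hb.neg x y, inner_neg_left, hb.inv]

omit [FiniteDimensional ℝ V] in
theorem LieB.comm {x y : V} (h : br x y = 0) (v : V) : br x (br y v) = br y (br x v) := by
  rw [hb.jac, h, map_zero, LinearMap.zero_apply, zero_add]

omit [FiniteDimensional ℝ V] in
theorem LieB.symm0 {x y : V} (h : br x y = 0) : br y x = 0 := by
  rw [hb.neg, h, neg_zero]

/-- The key of the regular elements. -/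
theorem exists_scalar {X Y : V} (h : br X Y = 0) :
    ∃ s : ℝ, s ≠ 0 ∧ ∀ v, br X v + s • br Y v = 0 → br X v = 0 ∧ br Y v = 0 := by
  let A : V →ₗ[ℝ] V := br X
  let C : V →ₗ[ℝ] V := br Y
  have hA : ∀ v, A v = br X v := fun _ => rfl
  have hC : ∀ v, C v = br Y v := fun _ => rfl
  let W : Submodule ℝ V := LinearMap.range A
  have hAW : ∀ v ∈ W, A v ∈ W := fun v _ => ⟨v, rfl⟩
  have hCW : ∀ v ∈ W, C v ∈ W := by
    rintro _ ⟨v, rfl⟩
    refine ⟨C v, ?_⟩
    rw [hA, hA, hC, hC]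
    exact hb.comm h v
  have hinj : ∀ v ∈ W, A v = 0 → v = 0 := by
    rintro _ ⟨v, rfl⟩ h1
    have h2 : ⟪A v, A v⟫ = 0 := by
      conv_lhs => rw [hA, hb.skew]
      rw [← hA, ← hA, h1, inner_zero_right, neg_zero]
    exact inner_self_eq_zero.mp h2
  let A' : W →ₗ[ℝ] W := A.restrict hAW
  let C' : W →ₗ[ℝ] W := C.restrict hCW
  have hA' : Function.Injective A' := by
    rw [← LinearMap.ker_eq_bot, LinearMap.ker_eq_bot']
    intro v hv
    apply Subtype.ext
    exact hinj v v.2 (congrArg Subtype.val hv)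
  let e : W ≃ₗ[ℝ] W := LinearEquiv.ofInjectiveEndo A' hA'
  let D : Module.End ℝ W := e.symm.toLinearMap.comp C'
  have hfin : (spectrum ℝ D).Finite := Module.End.finite_spectrum D
  obtain ⟨μ, hμ⟩ : ∃ μ : ℝ, μ ∉ spectrum ℝ D ∪ {0} :=
    (hfin.union (Set.finite_singleton 0)).infinite_compl.nonempty
  have hμ0 : μ ≠ 0 := fun h => hμ (Or.inr h)
  have hμD : μ ∉ spectrum ℝ D := fun h => hμ (Or.inl h)
  refine ⟨-μ⁻¹, neg_ne_zero.mpr (inv_ne_zero hμ0), fun v hv => ?_⟩
  -- the vector `A v`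
  have h1 : ∀ w ∈ W, A w + (-μ⁻¹) • C w = 0 → w = 0 := by
    intro w hw hw2
    have h2 : C w = μ • A w := by
      have h3 : A w = μ⁻¹ • C w := by
        rw [neg_smul] at hw2
        exact sub_eq_zero.mp (by rwa [sub_eq_add_neg])
      rw [h3, smul_smul, mul_inv_cancel₀ hμ0, one_smul]
    have h4 : D ⟨w, hw⟩ = μ • ⟨w, hw⟩ := by
      apply e.injective
      rw [map_smul]
      change e (e.symm (C' ⟨w, hw⟩)) = _
      rw [LinearEquiv.apply_symm_apply]
      apply Subtype.ext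
      exact h2
    by_contra hne
    apply hμD
    apply Module.End.HasEigenvalue.mem_spectrum
    apply Module.End.hasEigenvalue_of_hasEigenvector (x := ⟨w, hw⟩)
    rw [Module.End.hasEigenvector_iff]
    refine ⟨Module.End.mem_eigenspace_iff.mpr h4, fun h5 => hne (congrArg Subtype.val h5)⟩
  have h2 : A (A v) + (-μ⁻¹) • C (A v) = 0 := by
    have h3 : C (A v) = A (C v) := by
      rw [hC, hA, hC, hA]
      exact (hb.comm h v).symm
    rw [h3, ← map_smul, ← map_add]
    change A (br X v + (-μ⁻¹) • br Y v) = 0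
    rw [hv, map_zero]
  have h3 : br X v = 0 := h1 (A v) ⟨v, rfl⟩ h2
  refine ⟨h3, ?_⟩
  rw [h3, zero_add] at hv
  exact (smul_eq_zero.mp hv).resolve_left (neg_ne_zero.mpr (inv_ne_zero hμ0))

/-- Regular elements. -/
theorem exists_regular {T : Submodule ℝ V} (hT : MA br T) : ∃ X ∈ T, ∀ z, br X z = 0 → z ∈ T := by
  have hab : ∀ x ∈ T, ∀ y ∈ T, br x y = 0 := fun x hx y hy => (hT y).mp hy x hx
  have hne : Nonempty T := ⟨0⟩
  obtain ⟨X, hX⟩ : ∃ X : T, ∀ Y : T, Module.finrank ℝ (LinearMap.ker (br X)) ≤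
      Module.finrank ℝ (LinearMap.ker (br Y)) := by
    let f : T → ℕ := fun X => Module.finrank ℝ (LinearMap.ker (br X))
    exact ⟨Function.argmin f, fun Y => Function.argmin_le f Y⟩
  refine ⟨X, X.2, fun z hz => ?_⟩
  rw [hT]
  intro Y hY
  obtain ⟨s, hs, h1⟩ := exists_scalar hb (hab X X.2 Y hY)
  have h2 : LinearMap.ker (br (X + s • Y)) ≤ LinearMap.ker (br X) := by
    intro v hv
    rw [LinearMap.mem_ker, map_add, map_smul, LinearMap.add_apply, LinearMap.smul_apply] at hv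
    exact (h1 v hv).1
  have h3 : LinearMap.ker (br (X + s • Y)) = LinearMap.ker (br X) :=
    Submodule.eq_of_le_of_finrank_le h2 (hX ⟨X + s • Y, T.add_mem X.2 (T.smul_mem s hY)⟩)
  have h4 : z ∈ LinearMap.ker (br (X + s • Y)) := by
    rw [h3]
    exact hz
  rw [LinearMap.mem_ker, map_add, map_smul, LinearMap.add_apply, LinearMap.smul_apply] at h4
  exact (h1 z h4).2


/-- Commutativity of subspaces. -/
def Co (br : V →ₗ[ℝ] V →ₗ[ℝ] V) (S P : Submodule ℝ V) : Prop := ∀ s ∈ S, ∀ p ∈ P, br s p = 0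

omit [FiniteDimensional ℝ V] in
theorem co_sup {S P : Submodule ℝ V} (h1 : Co br S S) (h2 : Co br P P) (h3 : Co br S P) :
    Co br (S ⊔ P) (S ⊔ P) := by
  intro x hx y hy
  obtain ⟨s, hs, p, hp, rfl⟩ := Submodule.mem_sup.mp hx
  obtain ⟨s', hs', p', hp', rfl⟩ := Submodule.mem_sup.mp hy
  rw [map_add, map_add, LinearMap.add_apply, LinearMap.add_apply, h1 s hs s' hs', h2 p hp p' hp',
    h3 s hs p' hp', hb.symm0 (h3 s' hs' p hp)]
  simp

/-- Every automorphism preserves a maximal abelian subalgebra. -/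
theorem exists_MA (σ : V ≃ₗᵢ[ℝ] V) (hσ : ∀ x y, σ (br x y) = br (σ x) (σ y)) :
    ∃ T : Submodule ℝ V, MA br T ∧ ∀ t ∈ T, σ t ∈ T := by
  let 𝒮 : Type := {S : Submodule ℝ V // Co br S S ∧ ∀ s ∈ S, σ s ∈ S}
  have hne : Nonempty 𝒮 := ⟨⟨⊥, fun x hx y _ => by
    rw [Submodule.mem_bot] at hx
    rw [hx, map_zero, LinearMap.zero_apply], fun s hs => by
    rw [Submodule.mem_bot] at hs
    rw [hs, map_zero]
    exact Submodule.zero_mem _⟩⟩
  obtain ⟨S, hS⟩ : ∃ S : 𝒮, ∀ S' : 𝒮, Module.finrank ℝ S'.1 ≤ Module.finrank ℝ S.1 := by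
    have hbdd : ∃ n, ∃ S : 𝒮, Module.finrank ℝ V - Module.finrank ℝ S.1 = n := ⟨_, Classical.choice hne, rfl⟩
    let f : 𝒮 → ℕ := fun S => Module.finrank ℝ V - Module.finrank ℝ S.1
    refine ⟨Function.argmin f, fun S' => ?_⟩
    have h1 := Function.argmin_le f S'
    have h2 : Module.finrank ℝ S'.1 ≤ Module.finrank ℝ V := Submodule.finrank_le _
    have h3 : Module.finrank ℝ (Function.argmin f).1 ≤ Module.finrank ℝ V := Submodule.finrank_le _
    simp only [f] at h1
    simp only [f] at h3 ⊢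
    omega
  obtain ⟨S, hSS, hSσ⟩ := S
  simp only at hS
  -- no larger invariant abelian subspace
  have hmax : ∀ P : Submodule ℝ V, Co br P P → Co br S P → (∀ x ∈ P, σ x ∈ P) → P ≤ S := by
    intro P h1 h2 h3
    have h4 := hS ⟨S ⊔ P, co_sup hb hSS h1 h2, by
      intro x hx
      obtain ⟨s, hs, p, hp, rfl⟩ := Submodule.mem_sup.mp hx
      rw [map_add]
      exact Submodule.add_mem_sup (hSσ s hs) (h3 p hp)⟩
    have h5 : S = S ⊔ P := Submodule.eq_of_le_of_finrank_le le_sup_left h4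
    rw [h5]
    exact le_sup_right
  have hSσ' : ∀ s ∈ S, σ.symm s ∈ S := by
    have h1 : S.map (σ.toLinearEquiv : V →ₗ[ℝ] V) ≤ S := by
      rintro _ ⟨s, hs, rfl⟩
      exact hSσ s hs
    have h2 : S.map (σ.toLinearEquiv : V →ₗ[ℝ] V) = S := by
      apply Submodule.eq_of_le_of_finrank_le h1
      rw [LinearEquiv.finrank_map_eq]
    intro s hs
    rw [← h2] at hs
    obtain ⟨s', hs', rfl⟩ := hs
    have : σ.symm (σ s') = s' := σ.symm_apply_apply s'
    rw [show ((σ.toLinearEquiv : V →ₗ[ℝ] V) s') = σ s' from rfl, this]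
    exact hs'
  have hσ' : ∀ x y, σ.symm (br x y) = br (σ.symm x) (σ.symm y) := by
    intro x y
    apply σ.injective
    rw [hσ, σ.apply_symm_apply, σ.apply_symm_apply, σ.apply_symm_apply]
  -- the complement in the centralizer
  let Z : Submodule ℝ V :=
    { carrier := {z | (∀ s ∈ S, br s z = 0) ∧ ∀ s ∈ S, ⟪s, z⟫ = 0}
      add_mem' := by
        rintro a b ⟨h1, h2⟩ ⟨h3, h4⟩
        refine ⟨fun s hs => ?_, fun s hs => ?_⟩
        · rw [map_add, h1 s hs, h3 s hs, add_zero]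
        · rw [inner_add_right, h2 s hs, h4 s hs, add_zero]
      zero_mem' := ⟨fun s _ => map_zero _, fun s _ => inner_zero_right _⟩
      smul_mem' := by
        rintro c a ⟨h1, h2⟩
        refine ⟨fun s hs => ?_, fun s hs => ?_⟩
        · rw [map_smul, h1 s hs, smul_zero]
        · rw [inner_smul_right, h2 s hs, mul_zero] }
  have hZ : ∀ z, z ∈ Z ↔ (∀ s ∈ S, br s z = 0) ∧ ∀ s ∈ S, ⟪s, z⟫ = 0 := fun z => Iff.rfl
  have hZσ : ∀ z ∈ Z, σ z ∈ Z := by
    intro z hz
    refine ⟨fun s hs => ?_, fun s hs => ?_⟩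
    · have h1 := hz.1 (σ.symm s) (hSσ' s hs)
      have h2 := hσ (σ.symm s) z
      rw [h1, map_zero, σ.apply_symm_apply] at h2
      exact h2.symm
    · have h1 := hz.2 (σ.symm s) (hSσ' s hs)
      rw [← σ.inner_map_map, σ.apply_symm_apply] at h1
      exact h1
  have hZσ' : ∀ z ∈ Z, σ.symm z ∈ Z := by
    intro z hz
    refine ⟨fun s hs => ?_, fun s hs => ?_⟩
    · have h1 := hz.1 (σ s) (hSσ s hs)
      have h2 := hσ' (σ s) z
      rw [h1, map_zero, σ.symm_apply_apply] at h2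
      exact h2.symm
    · have h1 := hz.2 (σ s) (hSσ s hs)
      rw [← σ.symm.inner_map_map, σ.symm_apply_apply] at h1
      exact h1
  by_cases hZ0 : Z = ⊥
  · refine ⟨S, fun x => ⟨fun hx t ht => hSS t ht x hx, fun hx => ?_⟩, hSσ⟩
    obtain ⟨y, hy, z, hz, hyz⟩ := S.exists_add_mem_mem_orthogonal x
    have h1 : z ∈ Z := by
      refine ⟨fun s hs => ?_, fun s hs => ?_⟩
      · have h2 := hx s hs
        rw [hyz, map_add, hSS s hs y hy, zero_add] at h2
        exact h2
      · exact (Submodule.mem_orthogonal _ _).mp hz s hs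
    rw [hZ0, Submodule.mem_bot] at h1
    rw [hyz, h1, add_zero]
    exact hy
  · exfalso
    have hnt : Nontrivial Z := Submodule.nontrivial_iff_ne_bot.mpr hZ0
    let R : Z →ₗ[ℝ] Z :=
      ((σ.toLinearEquiv : V →ₗ[ℝ] V) + (σ.symm.toLinearEquiv : V →ₗ[ℝ] V)).restrict
        (fun z hz => Z.add_mem (hZσ z hz) (hZσ' z hz))
    have hR : ∀ z : Z, ((R z : Z) : V) = σ z + σ.symm z := fun _ => rfl
    have hsym : R.IsSymmetric := by
      intro x y
      rw [Submodule.coe_inner, Submodule.coe_inner, hR, hR, inner_add_left, inner_add_right,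
        ← σ.symm.inner_map_map (σ x), σ.symm_apply_apply, ← σ.inner_map_map (σ.symm x), σ.apply_symm_apply,
        add_comm]
    obtain ⟨μ, v, hv0, hv⟩ : ∃ μ : ℝ, ∃ v : Z, v ≠ 0 ∧ R v = μ • v := by
      obtain ⟨v, hv⟩ := (hsym.hasEigenvalue_iSup_of_finiteDimensional).exists_hasEigenvector
      exact ⟨_, v, hv.2, Module.End.mem_eigenspace_iff.mp hv.1⟩
    obtain ⟨A, hA⟩ := v
    have hA0 : A ≠ 0 := fun h => hv0 (Subtype.ext h)
    have h1 : σ A + σ.symm A = μ • A := congrArg Subtype.val hv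
    have h2 : σ (σ A) = μ • σ A - A := by
      have h3 := congrArg σ h1
      rw [map_add, σ.apply_symm_apply, map_smul] at h3
      rw [← h3]
      abel
    have hnot : ∀ z ∈ Z, z ≠ 0 → z ∉ S := by
      intro z hz hz0 hzS
      exact hz0 (inner_self_eq_zero.mp (hz.2 z hzS))
    have hσA : σ A ∈ Z := hZσ A hA
    by_cases hF : br A (σ A) = 0
    · have h3 := hmax (Submodule.span ℝ {A, σ A}) (by
        intro x hx y hy
        obtain ⟨a, b, rfl⟩ := Submodule.mem_span_pair.mp hx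
        obtain ⟨c, d, rfl⟩ := Submodule.mem_span_pair.mp hy
        simp only [map_add, map_smul, LinearMap.add_apply, LinearMap.smul_apply, hb.sk, hF,
          hb.symm0 hF, smul_zero, add_zero]) (by
        intro s hs y hy
        obtain ⟨c, d, rfl⟩ := Submodule.mem_span_pair.mp hy
        rw [map_add, map_smul, map_smul, hA.1 s hs, hσA.1 s hs, smul_zero, smul_zero, add_zero]) (by
        intro x hx
        obtain ⟨a, b, rfl⟩ := Submodule.mem_span_pair.mp hx
        rw [map_add, map_smul, map_smul, h2]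
        refine Submodule.mem_span_pair.mpr ⟨-b, a + b * μ, ?_⟩
        module)
      exact hnot A hA hA0 (h3 (Submodule.subset_span (Set.mem_insert _ _)))
    · have hFσ : σ (br A (σ A)) = br A (σ A) := by
        rw [hσ, h2, map_sub, map_smul, hb.sk, smul_zero, zero_sub, ← hb.neg]
      have hFZ : br A (σ A) ∈ Z := by
        refine ⟨fun s hs => ?_, fun s hs => ?_⟩
        · rw [hb.jac, hA.1 s hs, hσA.1 s hs, map_zero, map_zero, LinearMap.zero_apply, add_zero]
        · rw [← hb.inv, hA.1 s hs, inner_zero_left]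
      have h3 := hmax (Submodule.span ℝ {br A (σ A)}) (by
        intro x hx y hy
        obtain ⟨a, rfl⟩ := Submodule.mem_span_singleton.mp hx
        obtain ⟨c, rfl⟩ := Submodule.mem_span_singleton.mp hy
        rw [map_smul, map_smul, LinearMap.smul_apply, hb.sk, smul_zero, smul_zero]) (by
        intro s hs y hy
        obtain ⟨c, rfl⟩ := Submodule.mem_span_singleton.mp hy
        rw [map_smul, hFZ.1 s hs, smul_zero]) (by
        intro x hx
        obtain ⟨a, rfl⟩ := Submodule.mem_span_singleton.mp hx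
        rw [map_smul, hFσ]
        exact Submodule.smul_mem _ _ (Submodule.mem_span_singleton_self _))
      exact hnot _ hFZ hF (h3 (Submodule.mem_span_singleton_self _))

end Pool.Agent.V1128.TIG
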