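import Mathlib
import Pool.Agent.V1128.TIG.Lin

set_option autoImplicit false

/-!
Compact groups acting on a compact Lie algebra.
-/

namespace Pool.Agent.V1128.TIG

open scoped RealInnerProductSpace

section Inner

variable {V : Type} [NormedAddCommGroup V] [InnerProductSpace ℝ V] [FiniteDimensional ℝ V]
  {br : V →ₗ[ℝ] V →ₗ[ℝ] V} (hb : LieB br)
  {G : Type} [Group G] [TopologicalSpace G] [IsTopologicalGroup G] [CompactSpace G]
  (Ad : G →* (V ≃ₗᵢ[ℝ] V)) (hAd : ∀ g x y, Ad g (br x y) = br (Ad g x) (Ad g y))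
  (hc : ∀ x y, Continuous fun g => ⟪Ad g x, y⟫)
  (hd : ∀ Z, ∃ γ : ℝ → G, Ad (γ 0) = 1 ∧
    ∀ X Y, HasDerivAt (fun t => ⟪Ad (γ t) X, Y⟫) ⟪br Z X, Y⟫ 0)

omit [FiniteDimensional ℝ V] [TopologicalSpace G] [IsTopologicalGroup G] [CompactSpace G] in
theorem Ad_mul_apply (g h : G) (x : V) : Ad (g * h) x = Ad g (Ad h x) := by
  rw [map_mul]
  rfl

omit [FiniteDimensional ℝ V] [TopologicalSpace G] [IsTopologicalGroup G] [CompactSpace G] in
theorem Ad_inv_apply (g : G) (x : V) : Ad g⁻¹ (Ad g x) = x := by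
  rw [← Ad_mul_apply, inv_mul_cancel, map_one]
  rfl

omit [FiniteDimensional ℝ V] [TopologicalSpace G] [IsTopologicalGroup G] [CompactSpace G] in
theorem Ad_apply_inv (g : G) (x : V) : Ad g (Ad g⁻¹ x) = x := by
  rw [← Ad_mul_apply, mul_inv_cancel, map_one]
  rfl

include hb hAd hc hd in
/-- Maximal abelian subalgebras are conjugate. -/
theorem MA_conj {T T' : Submodule ℝ V} (hT : MA br T) (hT' : MA br T') :
    ∃ g : G, ∀ x ∈ T', Ad g x ∈ T := by
  obtain ⟨X, hX, hXr⟩ := exists_regular hb hT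
  obtain ⟨X', hX', hXr'⟩ := exists_regular hb hT'
  obtain ⟨g, -, hg⟩ := isCompact_univ.exists_isMaxOn (s := (Set.univ : Set G)) ⟨1, trivial⟩
    (hc X' X).continuousOn
  have hY : ∀ Z, ⟪br Z (Ad g X'), X⟫ = 0 := by
    intro Z
    obtain ⟨γ, h0, h1⟩ := hd Z
    refine IsLocalMax.hasDerivAt_eq_zero ?_ (h1 (Ad g X') X)
    refine Filter.Eventually.of_forall fun t => ?_
    have h2 := hg (Set.mem_univ (γ t * g))
    simp only [Set.mem_ofPred_eq] at h2
    rw [Ad_mul_apply] at h2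
    beta_reduce
    rw [h0]
    exact h2
  have hYT : Ad g X' ∈ T := by
    apply hXr
    have h2 : ∀ Z, ⟪Z, br (Ad g X') X⟫ = 0 := by
      intro Z
      rw [← hb.inv]
      exact hY Z
    have h3 : br (Ad g X') X = 0 := inner_self_eq_zero.mp (h2 _)
    exact hb.symm0 h3
  have hab : ∀ x ∈ T, ∀ y ∈ T, br x y = 0 := fun x hx y hy => (hT y).mp hy x hx
  have hab' : ∀ x ∈ T', ∀ y ∈ T', br x y = 0 := fun x hx y hy => (hT' y).mp hy x hx
  have h4 : ∀ t ∈ T, Ad g⁻¹ t ∈ T' := by
    intro t ht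
    apply hXr'
    have h5 := hab _ hYT t ht
    have h6 := congrArg (Ad g⁻¹) h5
    rwa [hAd, Ad_inv_apply, map_zero] at h6
  refine ⟨g, fun x hx => ?_⟩
  rw [hT]
  intro t ht
  have h5 := hab' _ (h4 t ht) x hx
  have h6 := congrArg (Ad g) h5
  rwa [hAd, Ad_apply_inv, map_zero] at h6

include hAd in
omit [FiniteDimensional ℝ V] [TopologicalSpace G] [IsTopologicalGroup G] [CompactSpace G] in
theorem MA_inv {T : Submodule ℝ V} (hT : MA br T) {g : G} (h : ∀ x ∈ T, Ad g x ∈ T) :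
    ∀ x ∈ T, Ad g⁻¹ x ∈ T := by
  intro x hx
  rw [hT]
  intro t ht
  have h1 := (hT x).mp hx _ (h t ht)
  have h2 := congrArg (Ad g⁻¹) h1
  rwa [hAd, Ad_inv_apply, map_zero] at h2

include hb hAd hc hd in
/-- The normalizer of a maximal abelian subalgebra meets every conjugacy class. -/
theorem stepB (hne : ∃ x y, br x y ≠ 0) :
    ∃ H : Subgroup G, IsClosed (H : Set G) ∧ H ≠ ⊤ ∧ ∀ g, ∃ h, h * g * h⁻¹ ∈ H := by
  obtain ⟨T, hT, -⟩ := exists_MA hb (1 : V ≃ₗᵢ[ℝ] V) (fun _ _ => rfl)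
  let H : Subgroup G :=
    { carrier := {g | ∀ t ∈ T, Ad g t ∈ T}
      mul_mem' := by
        intro a b ha hb' t ht
        rw [Ad_mul_apply]
        exact ha _ (hb' t ht)
      one_mem' := by
        intro t ht
        rw [map_one]
        exact ht
      inv_mem' := by
        intro a ha
        exact MA_inv Ad hAd hT ha }
  have hH : ∀ g, g ∈ H ↔ ∀ t ∈ T, Ad g t ∈ T := fun _ => Iff.rfl
  have hmem : ∀ x, x ∈ T ↔ ∀ y ∈ Tᗮ, ⟪x, y⟫ = 0 := by
    intro x
    constructor
    · intro hx y hy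
      exact (Submodule.mem_orthogonal _ _).mp hy x hx
    · intro h
      rw [← T.orthogonal_orthogonal]
      refine (Submodule.mem_orthogonal _ _).mpr fun y hy => ?_
      rw [real_inner_comm]
      exact h y hy
  refine ⟨H, ?_, ?_, ?_⟩
  · have h1 : (H : Set G) = ⋂ t ∈ T, ⋂ y ∈ Tᗮ, {g | ⟪Ad g t, y⟫ = 0} := by
      ext g
      simp only [SetLike.mem_coe, hH, Set.mem_iInter, Set.mem_ofPred_eq]
      exact forall₂_congr fun t _ => hmem _
    rw [h1]
    refine isClosed_iInter fun t => isClosed_iInter fun _ => isClosed_iInter fun y =>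
      isClosed_iInter fun _ => ?_
    exact isClosed_eq (hc t y) continuous_const
  · intro htop
    obtain ⟨x, y, hxy⟩ := hne
    have h1 : ∀ Z, ∀ t ∈ T, br Z t = 0 := by
      intro Z t ht
      have h2 : br Z t ∈ Tᗮ := by
        refine (Submodule.mem_orthogonal _ _).mpr fun s hs => ?_
        rw [real_inner_comm, hb.inv, (hT s).mp hs t ht, inner_zero_right]
      have h3 : ∀ y ∈ Tᗮ, ⟪br Z t, y⟫ = 0 := by
        intro y hy
        obtain ⟨γ, h0, h4⟩ := hd Z
        refine (h4 t y).unique ?_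
        have h5 : (fun s => ⟪Ad (γ s) t, y⟫) = fun _ => (0 : ℝ) := by
          funext s
          have h6 : γ s ∈ H := by rw [htop]; trivial
          exact (hmem _).mp (h6 t ht) y hy
        rw [h5]
        exact hasDerivAt_const _ _
      exact inner_self_eq_zero.mp (h3 _ h2)
    have h2 : ∀ Z, Z ∈ T := by
      intro Z
      rw [hT]
      intro t ht
      exact hb.symm0 (h1 Z t ht)
    exact hxy ((hT y).mp (h2 y) x (h2 x))
  · intro g
    obtain ⟨T', hT', hg⟩ := exists_MA hb (Ad g) (hAd g)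
    obtain ⟨k, hk⟩ := MA_conj hb Ad hAd hc hd hT hT'
    have hk' : ∀ t ∈ T, Ad k⁻¹ t ∈ T' := by
      intro t ht
      rw [hT']
      intro s hs
      have h1 := (hT t).mp ht _ (hk s hs)
      have h2 := congrArg (Ad k⁻¹) h1
      rwa [hAd, Ad_inv_apply, map_zero] at h2
    refine ⟨k, fun t ht => ?_⟩
    rw [Ad_mul_apply, Ad_mul_apply]
    exact hk _ (hg _ (hk' t ht))

end Inner

section Core

variable {V : Type} [AddCommGroup V] [Module ℝ V] [FiniteDimensional ℝ V]

/-- The version for a positive definite form. -/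
theorem stepB' (B : V →ₗ[ℝ] V →ₗ[ℝ] ℝ) (hsymm : ∀ x y, B x y = B y x) (hpos : ∀ x, x ≠ 0 → 0 < B x x)
    (br : V →ₗ[ℝ] V →ₗ[ℝ] V) (sk : ∀ x, br x x = 0) (inv : ∀ x y z, B (br x y) z = B x (br y z))
    (jac : ∀ x y z, br x (br y z) = br (br x y) z + br y (br x z))
    {G : Type} [Group G] [TopologicalSpace G] [IsTopologicalGroup G] [CompactSpace G]
    (Ad : G →* (V →ₗ[ℝ] V)) (hAdB : ∀ g x y, B (Ad g x) (Ad g y) = B x y)
    (hAd : ∀ g x y, Ad g (br x y) = br (Ad g x) (Ad g y))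
    (hc : ∀ x y, Continuous fun g => B (Ad g x) y)
    (hd : ∀ Z, ∃ γ : ℝ → G, Ad (γ 0) = 1 ∧
      ∀ X Y, HasDerivAt (fun t => B (Ad (γ t) X) Y) (B (br Z X) Y) 0)
    (hne : ∃ x y, br x y ≠ 0) :
    ∃ H : Subgroup G, IsClosed (H : Set G) ∧ H ≠ ⊤ ∧ ∀ g, ∃ h, h * g * h⁻¹ ∈ H := by
  let core : InnerProductSpace.Core ℝ V :=
    { inner := fun x y => B x y
      conj_inner_symm := fun x y => by
        simp only [conj_trivial]
        exact hsymm y x
      re_inner_nonneg := fun x => by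
        by_cases h : x = 0
        · subst h
          simp
        · exact (hpos x h).le
      add_left := fun x y z => by simp
      smul_left := fun x y r => by simp
      definite := fun x h => by
        by_contra hne
        exact (hpos x hne).ne' h }
  let _ : NormedAddCommGroup V := core.toNormedAddCommGroup
  let _ : InnerProductSpace ℝ V := InnerProductSpace.ofCore core.toCore
  have hin : ∀ x y : V, ⟪x, y⟫ = B x y := fun _ _ => rfl
  have hinv1 : ∀ g x, Ad g⁻¹ (Ad g x) = x := fun g x => by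
    rw [← Module.End.mul_apply, ← map_mul, inv_mul_cancel, map_one]
    rfl
  have hinv2 : ∀ g x, Ad g (Ad g⁻¹ x) = x := fun g x => by
    rw [← Module.End.mul_apply, ← map_mul, mul_inv_cancel, map_one]
    rfl
  let Ad' : G →* (V ≃ₗᵢ[ℝ] V) :=
    { toFun := fun g =>
        { toLinearEquiv := LinearEquiv.ofLinearMap (Ad g) (Ad g⁻¹)
            (LinearMap.ext (hinv2 g)) (LinearMap.ext (hinv1 g))
          norm_map' := fun x => by
            change ‖Ad g x‖ = ‖x‖
            rw [← Real.sqrt_sq (norm_nonneg (Ad g x)), ← Real.sqrt_sq (norm_nonneg x),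
              ← real_inner_self_eq_norm_sq, ← real_inner_self_eq_norm_sq, hin, hin, hAdB] }
      map_one' := by
        ext x
        change Ad 1 x = x
        rw [map_one]
        rfl
      map_mul' := fun g h => by
        ext x
        change Ad (g * h) x = Ad g (Ad h x)
        rw [map_mul]
        rfl }
  have hAd' : ∀ g x, Ad' g x = Ad g x := fun _ _ => rfl
  refine stepB (br := br) ⟨sk, inv, jac⟩ Ad' hAd hc ?_ hne
  intro Z
  obtain ⟨γ, h0, h1⟩ := hd Z
  refine ⟨γ, ?_, h1⟩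
  ext x
  rw [hAd', h0]
  rfl

end Core

end Pool.Agent.V1128.TIG
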