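import Mathlib
import Pool.Agent.V1128.TIG.Act
import Pool.Agent.TH77.UnitsLG

set_option autoImplicit false
set_option linter.unusedSectionVars false

/-!
The Lie algebra of a compact linear group.
-/

namespace Pool.Agent.V1128.TIG

open Pool.Agent.TH77

section Alg

variable {𝔸 : Type} [NormedRing 𝔸] [NormedAlgebra ℝ 𝔸] [CompleteSpace 𝔸]

theorem conj_deriv (z x : 𝔸) :
    HasDerivAt (fun t : ℝ => NormedSpace.exp (t • z) * x * NormedSpace.exp (t • (-z))) (z * x - x * z) 0 := by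
  have h1 : HasDerivAt (fun t : ℝ => NormedSpace.exp (t • z)) (NormedSpace.exp ((0 : ℝ) • z) * z) 0 :=
    hasDerivAt_exp_smul_const z 0
  have h2 : HasDerivAt (fun t : ℝ => NormedSpace.exp (t • (-z))) (NormedSpace.exp ((0 : ℝ) • (-z)) * (-z)) 0 :=
    hasDerivAt_exp_smul_const (-z) 0
  rw [zero_smul, NormedSpace.exp_zero, one_mul] at h1 h2
  have h3 := (h1.mul_const x).mul h2
  simp only [zero_smul, NormedSpace.exp_zero, mul_one, one_mul] at h3
  have h5 : z * x - x * z = z * x + x * -z := by rw [mul_neg, sub_eq_add_neg]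
  rw [h5]
  exact h3

theorem deriv_mem [FiniteDimensional ℝ 𝔸] {S : Submodule ℝ 𝔸} {f : ℝ → 𝔸} {f' : 𝔸} (h : HasDerivAt f f' 0)
    (hf : ∀ t, f t ∈ S) : f' ∈ S := by
  have hS : IsClosed (S : Set 𝔸) := S.closed_of_finiteDimensional
  have h1 := hasDerivAt_iff_tendsto_slope_zero.mp h
  refine hS.mem_of_tendsto h1 (Filter.Eventually.of_forall fun t => ?_)
  exact S.smul_mem _ (S.sub_mem (hf _) (hf _))

variable [StarRing 𝔸] [ContinuousStar 𝔸] [StarModule ℝ 𝔸]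

theorem star_exp_smul (t : ℝ) (x : 𝔸) : star (NormedSpace.exp (t • x)) = NormedSpace.exp (t • star x) := by
  rw [NormedSpace.star_exp, star_smul, star_trivial]

theorem star_eq_of_exp {x : 𝔸} (h : ∀ t : ℝ, star (NormedSpace.exp (t • x)) * NormedSpace.exp (t • x) = 1) :
    star x = -x := by
  apply (LG.units 𝔸).eq_of_forall_exp
  intro t
  apply Units.ext
  rw [LG.units_exp, LG.units_exp]
  have h2 : NormedSpace.exp (t • x) * NormedSpace.exp (t • -x) = 1 := by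
    rw [← expR_add (by rw [smul_neg]; exact (Commute.refl _).neg_right), smul_neg, add_neg_cancel,
      NormedSpace.exp_zero]
  have h3 := h t
  rw [star_exp_smul] at h3
  calc NormedSpace.exp (t • star x) =
        NormedSpace.exp (t • star x) * (NormedSpace.exp (t • x) * NormedSpace.exp (t • -x)) := by
        rw [h2, mul_one]
    _ = NormedSpace.exp (t • -x) := by rw [← mul_assoc, h3, one_mul]

end Alg

section

variable {𝔸 : Type} [NormedRing 𝔸] [NormedAlgebra ℝ 𝔸] [CompleteSpace 𝔸]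
variable [StarRing 𝔸] [ContinuousStar 𝔸] [StarModule ℝ 𝔸]
variable {G : Type} [Group G] [TopologicalSpace G] [CompactSpace G]
  (ρ : G →* unitary 𝔸) (hρ : Continuous ρ)

/-- The representation as a homomorphism to the units. -/
def psi : G →* 𝔸ˣ := (Unitary.toUnits (R := 𝔸)).comp ρ

omit [NormedAlgebra ℝ 𝔸] [CompleteSpace 𝔸] [ContinuousStar 𝔸] [StarModule ℝ 𝔸] [TopologicalSpace G] [CompactSpace G] in
theorem psi_val (g : G) : ((psi ρ g : 𝔸ˣ) : 𝔸) = (ρ g : 𝔸) := rfl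

omit [NormedAlgebra ℝ 𝔸] [CompleteSpace 𝔸] [ContinuousStar 𝔸] [StarModule ℝ 𝔸] [TopologicalSpace G] [CompactSpace G] in
theorem psi_inv (g : G) : (((psi ρ g)⁻¹ : 𝔸ˣ) : 𝔸) = star (ρ g : 𝔸) := rfl

include hρ in
omit [NormedAlgebra ℝ 𝔸] [CompleteSpace 𝔸] [StarModule ℝ 𝔸] [CompactSpace G] in
theorem psi_cont : Continuous (psi ρ) := by
  rw [Units.continuous_iff]
  have h1 : Continuous fun g => (ρ g : 𝔸) := continuous_subtype_val.comp hρ
  refine ⟨h1, ?_⟩
  have h2 : Continuous fun g => star (ρ g : 𝔸) := h1.star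
  exact h2

include hρ in
omit [NormedAlgebra ℝ 𝔸] [CompleteSpace 𝔸] [StarModule ℝ 𝔸] in
theorem psi_closed : IsClosed (((psi ρ).range : Subgroup 𝔸ˣ) : Set 𝔸ˣ) := by
  rw [MonoidHom.coe_range]
  exact (isCompact_range (psi_cont ρ hρ)).isClosed

/-- The Lie algebra of the image. -/
noncomputable def kk : Submodule ℝ 𝔸 := (LG.units 𝔸).lie (psi ρ).range (psi_closed ρ hρ)

omit [StarModule ℝ 𝔸] in
theorem mem_kk {x : 𝔸} : x ∈ kk ρ hρ ↔ ∀ t : ℝ, ∃ g, (ρ g : 𝔸) = NormedSpace.exp (t • x) := by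
  rw [kk, LG.mem_lie]
  refine forall_congr' fun t => ?_
  rw [MonoidHom.mem_range]
  refine exists_congr fun g => ?_
  rw [Units.ext_iff, psi_val, LG.units_exp]

theorem kk_skew {x : 𝔸} (hx : x ∈ kk ρ hρ) : star x = -x := by
  apply star_eq_of_exp
  intro t
  obtain ⟨g, hg⟩ := (mem_kk ρ hρ).mp hx t
  rw [← hg]
  exact Unitary.star_mul_self_of_mem (ρ g).2

omit [StarModule ℝ 𝔸] in
theorem kk_conj {x : 𝔸} (hx : x ∈ kk ρ hρ) (g : G) : (ρ g : 𝔸) * x * star (ρ g : 𝔸) ∈ kk ρ hρ := by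
  rw [mem_kk] at hx ⊢
  intro t
  obtain ⟨h, hh⟩ := hx t
  refine ⟨g * h * g⁻¹, ?_⟩
  let _ : NormedAlgebra ℚ 𝔸 := NormedAlgebra.restrictScalars ℚ ℝ 𝔸
  have h1 := NormedSpace.exp_units_conj (psi ρ g) (t • x)
  rw [psi_val, psi_inv] at h1
  have h2 : t • ((ρ g : 𝔸) * x * star (ρ g : 𝔸)) = (ρ g : 𝔸) * (t • x) * star (ρ g : 𝔸) := by
    rw [mul_smul_comm, smul_mul_assoc]
  rw [h2, h1, ← hh, map_mul, map_mul, map_inv]
  rfl

theorem exp_neg_eq {x : 𝔸} (hx : x ∈ kk ρ hρ) {t : ℝ} {g : G} (hg : (ρ g : 𝔸) = NormedSpace.exp (t • x)) :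
    NormedSpace.exp (t • -x) = star (ρ g : 𝔸) := by
  rw [hg, star_exp_smul, kk_skew ρ hρ hx]

variable [FiniteDimensional ℝ 𝔸]

theorem kk_br {x y : 𝔸} (hx : x ∈ kk ρ hρ) (hy : y ∈ kk ρ hρ) : x * y - y * x ∈ kk ρ hρ := by
  refine deriv_mem (conj_deriv x y) fun t => ?_
  obtain ⟨g, hg⟩ := (mem_kk ρ hρ).mp hx t
  rw [exp_neg_eq ρ hρ hx hg, ← hg]
  exact kk_conj ρ hρ hy g

/-- The bracket. -/
noncomputable def br : kk ρ hρ →ₗ[ℝ] kk ρ hρ →ₗ[ℝ] kk ρ hρ :=
  LinearMap.mk₂ ℝ (fun x y => ⟨(x : 𝔸) * y - y * x, kk_br ρ hρ x.2 y.2⟩)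
    (fun x y z => Subtype.ext (by simp only [Submodule.coe_add]; noncomm_ring))
    (fun c x y => Subtype.ext (by simp only [Submodule.coe_smul, smul_mul_assoc, mul_smul_comm, smul_sub]))
    (fun x y z => Subtype.ext (by simp only [Submodule.coe_add]; noncomm_ring))
    (fun c x y => Subtype.ext (by simp only [Submodule.coe_smul, smul_mul_assoc, mul_smul_comm, smul_sub]))

theorem br_val (x y : kk ρ hρ) : ((br ρ hρ x y : kk ρ hρ) : 𝔸) = (x : 𝔸) * y - y * x := rfl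

/-- The adjoint action. -/
noncomputable def Ad : G →* (kk ρ hρ →ₗ[ℝ] kk ρ hρ) where
  toFun g :=
    { toFun := fun x => ⟨(ρ g : 𝔸) * x * star (ρ g : 𝔸), kk_conj ρ hρ x.2 g⟩
      map_add' := fun x y => Subtype.ext (by simp only [Submodule.coe_add]; noncomm_ring)
      map_smul' := fun c x => Subtype.ext (by
        simp only [Submodule.coe_smul, smul_mul_assoc, mul_smul_comm, RingHom.id_apply]) }
  map_one' := by
    ext x
    change ((ρ 1 : unitary 𝔸) : 𝔸) * x * star ((ρ 1 : unitary 𝔸) : 𝔸) = x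
    rw [map_one, OneMemClass.coe_one, one_mul, star_one, mul_one]
  map_mul' g h := by
    ext x
    change ((ρ (g * h) : unitary 𝔸) : 𝔸) * x * star ((ρ (g * h) : unitary 𝔸) : 𝔸) =
      (ρ g : 𝔸) * ((ρ h : 𝔸) * x * star (ρ h : 𝔸)) * star (ρ g : 𝔸)
    rw [map_mul, Submonoid.coe_mul, star_mul]
    noncomm_ring

theorem Ad_val (g : G) (x : kk ρ hρ) :
    ((Ad ρ hρ g x : kk ρ hρ) : 𝔸) = (ρ g : 𝔸) * x * star (ρ g : 𝔸) := rfl

variable (τ : 𝔸 →L[ℝ] ℝ)

/-- The form. -/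
noncomputable def BB : kk ρ hρ →ₗ[ℝ] kk ρ hρ →ₗ[ℝ] ℝ :=
  LinearMap.mk₂ ℝ (fun x y => τ (star (x : 𝔸) * y))
    (fun x y z => by simp only [Submodule.coe_add, star_add, add_mul, map_add])
    (fun c x y => by simp only [Submodule.coe_smul, star_smul, star_trivial, smul_mul_assoc, map_smul])
    (fun x y z => by simp only [Submodule.coe_add, mul_add, map_add])
    (fun c x y => by simp only [Submodule.coe_smul, mul_smul_comm, map_smul])

theorem BB_val (x y : kk ρ hρ) : BB ρ hρ τ x y = τ (star (x : 𝔸) * y) := rfl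

theorem BB_val' (x y : kk ρ hρ) : BB ρ hρ τ x y = -τ ((x : 𝔸) * y) := by
  rw [BB_val, kk_skew ρ hρ x.2, neg_mul, map_neg]

theorem star_mul_rho (g : G) : star (ρ g : 𝔸) * (ρ g : 𝔸) = 1 := Unitary.star_mul_self_of_mem (ρ g).2

theorem gen_comm (hcomm : ∀ x ∈ kk ρ hρ, ∀ y ∈ kk ρ hρ, x * y = y * x) {u v : 𝔸ˣ}
    (hu : u ∈ (LG.units 𝔸).gen (kk ρ hρ)) (hv : v ∈ (LG.units 𝔸).gen (kk ρ hρ)) : u * v = v * u := by
  have h1 : ∀ x ∈ kk ρ hρ, ∀ y ∈ kk ρ hρ, (LG.units 𝔸).exp x * (LG.units 𝔸).exp y =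
      (LG.units 𝔸).exp y * (LG.units 𝔸).exp x := by
    intro x hx y hy
    apply Units.ext
    rw [Units.val_mul, Units.val_mul, LG.units_exp, LG.units_exp]
    have h2 : Commute x y := hcomm x hx y hy
    rw [← expR_add h2, ← expR_add h2.symm, add_comm]
  have h2 : (LG.units 𝔸).gen (kk ρ hρ) ≤ Subgroup.centralizer ((LG.units 𝔸).exp '' (kk ρ hρ : Set 𝔸)) := by
    apply LG.gen_le
    intro x hx
    rw [Subgroup.mem_centralizer_iff]
    rintro _ ⟨y, hy, rfl⟩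
    exact h1 y hy x hx
  have h3 : (LG.units 𝔸).gen (kk ρ hρ) ≤ Subgroup.centralizer {u} := by
    apply LG.gen_le
    intro x hx
    rw [Subgroup.mem_centralizer_iff]
    rintro _ rfl
    exact ((Subgroup.mem_centralizer_iff.mp (h2 hu)) _ ⟨x, hx, rfl⟩).symm
  exact (Subgroup.mem_centralizer_iff.mp (h3 hv)) u rfl

include hρ in
theorem stepC (hτ : ∀ x y, τ (x * y) = τ (y * x)) (hτp : ∀ x, x ≠ 0 → 0 < τ (star x * x))
    [IsTopologicalGroup G]
    {a b : G} (ha : a ∈ connectedComponent (1 : G)) (hb : b ∈ connectedComponent (1 : G))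
    (hab : ρ (a * b) ≠ ρ (b * a)) :
    ∃ H : Subgroup G, IsClosed (H : Set G) ∧ H ≠ ⊤ ∧ ∀ g, ∃ h, h * g * h⁻¹ ∈ H := by
  refine stepB' (BB ρ hρ τ) ?_ ?_ (br ρ hρ) ?_ ?_ ?_ (Ad ρ hρ) ?_ ?_ ?_ ?_ ?_
  · intro x y
    rw [BB_val', BB_val', hτ]
  · intro x hx
    rw [BB_val]
    exact hτp _ fun h => hx (Subtype.ext h)
  · intro x
    apply Subtype.ext
    rw [br_val, sub_self]
    rfl
  · intro x y z
    have h1 : τ ((y : 𝔸) * x * z) = τ ((x : 𝔸) * (z * y)) := by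
      rw [mul_assoc, hτ, mul_assoc]
    rw [BB_val', BB_val', br_val, br_val, sub_mul, mul_sub, map_sub, map_sub, h1, mul_assoc]
  · intro x y z
    apply Subtype.ext
    simp only [br_val, Submodule.coe_add]
    noncomm_ring
  · intro g x y
    rw [BB_val, BB_val, Ad_val, Ad_val, star_mul, star_mul, star_star]
    have h1 : (ρ g : 𝔸) * (star (x : 𝔸) * star (ρ g : 𝔸)) * ((ρ g : 𝔸) * y * star (ρ g : 𝔸)) =
        (ρ g : 𝔸) * ((star (x : 𝔸) * (star (ρ g : 𝔸) * (ρ g : 𝔸)) * y) * star (ρ g : 𝔸)) := by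
      noncomm_ring
    rw [h1, star_mul_rho, mul_one, hτ, mul_assoc, star_mul_rho, mul_one]
  · intro g x y
    apply Subtype.ext
    rw [Ad_val, br_val, br_val, Ad_val, Ad_val]
    have h1 : ∀ u v : 𝔸, ((ρ g : 𝔸) * u * star (ρ g : 𝔸)) * ((ρ g : 𝔸) * v * star (ρ g : 𝔸)) =
        (ρ g : 𝔸) * (u * v) * star (ρ g : 𝔸) := by
      intro u v
      have h2 : ((ρ g : 𝔸) * u * star (ρ g : 𝔸)) * ((ρ g : 𝔸) * v * star (ρ g : 𝔸)) =
        (ρ g : 𝔸) * u * (star (ρ g : 𝔸) * (ρ g : 𝔸)) * v * star (ρ g : 𝔸) := by noncomm_ring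
      rw [h2, star_mul_rho]
      noncomm_ring
    rw [h1, h1]
    noncomm_ring
  · intro x y
    have h1 : Continuous fun g => (ρ g : 𝔸) := continuous_subtype_val.comp hρ
    exact τ.continuous.comp ((((h1.mul_const (x : 𝔸)).mul h1.star).star).mul_const (y : 𝔸))
  · intro Z
    choose γ hγ using (mem_kk ρ hρ).mp Z.2
    refine ⟨γ, ?_, fun X Y => ?_⟩
    · apply LinearMap.ext
      intro x
      apply Subtype.ext
      rw [Ad_val, hγ, zero_smul, NormedSpace.exp_zero, one_mul, star_one, mul_one]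
      rfl
    · have h1 : (fun t => BB ρ hρ τ (Ad ρ hρ (γ t) X) Y) = fun t : ℝ =>
          (-τ) ((NormedSpace.exp (t • (Z : 𝔸)) * X * NormedSpace.exp (t • (-(Z : 𝔸)))) * Y) := by
        funext t
        rw [BB_val', Ad_val, exp_neg_eq ρ hρ Z.2 (hγ t), hγ t]
        rfl
      rw [h1, BB_val', br_val]
      have h2 := (conj_deriv (Z : 𝔸) (X : 𝔸)).mul_const (Y : 𝔸)
      exact (-τ).hasFDerivAt.comp_hasDerivAt (0 : ℝ) h2
  · by_contra hcon
    push Not at hcon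
    have hcomm : ∀ x ∈ kk ρ hρ, ∀ y ∈ kk ρ hρ, x * y = y * x := by
      intro x hx y hy
      have h1 := congrArg Subtype.val (hcon ⟨x, hx⟩ ⟨y, hy⟩)
      rw [br_val] at h1
      exact sub_eq_zero.mp h1
    have hmem : ∀ g ∈ connectedComponent (1 : G), psi ρ g ∈ (LG.units 𝔸).gen (kk ρ hρ) := by
      intro g hg
      have _ : PreconnectedSpace (connectedComponent (1 : G)) :=
        Subtype.preconnectedSpace isPreconnected_connectedComponent
      exact (LG.units 𝔸).path_mem_gen (psi ρ).range (psi_closed ρ hρ)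
        (c := fun x : connectedComponent (1 : G) => psi ρ x)
        ((psi_cont ρ hρ).comp continuous_subtype_val) (fun x => ⟨x, rfl⟩)
        (x₀ := ⟨1, mem_connectedComponent⟩) (map_one _) ⟨g, hg⟩
    have h1 := gen_comm ρ hρ hcomm (hmem a ha) (hmem b hb)
    apply hab
    apply Subtype.ext
    have h2 := congrArg Units.val h1
    rw [map_mul, map_mul]
    exact h2

end

end Pool.Agent.V1128.TIG
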