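import Mathlib
import Pool.Agent.V1128.TIG.Rep
import Pool.Agent.Y842.CX.Sep

set_option autoImplicit false
set_option linter.unusedSectionVars false

/-!
Compact groups with a non-abelian identity component.
-/

namespace Pool.Agent.V1128.TIG

section Mat

open scoped Matrix.Norms.Operator Matrix

variable {r : ℕ}

/-- Complex matrices. -/
abbrev MM (r : ℕ) : Type := Matrix (Fin r) (Fin r) ℂ

theorem tr_pos {x : MM r} (hx : x ≠ 0) : 0 < ((star x * x).trace).re := by
  have h1 : ((star x * x).trace).re = ∑ i, ∑ j, Complex.normSq (x j i) := by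
    rw [Matrix.trace, Complex.re_sum]
    refine Finset.sum_congr rfl fun i _ => ?_
    rw [Matrix.diag_apply, Matrix.mul_apply, Complex.re_sum]
    refine Finset.sum_congr rfl fun j _ => ?_
    rw [Matrix.star_apply, Complex.star_def, ← Complex.normSq_eq_conj_mul_self, Complex.ofReal_re]
  rw [h1]
  have h2 : ∃ i j, x i j ≠ 0 := by
    by_contra hcon
    push Not at hcon
    exact hx (Matrix.ext hcon)
  obtain ⟨i, j, hij⟩ := h2
  apply Finset.sum_pos' (fun i _ => Finset.sum_nonneg fun j _ => Complex.normSq_nonneg _)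
  refine ⟨j, Finset.mem_univ _, Finset.sum_pos' (fun j _ => Complex.normSq_nonneg _) ⟨i, Finset.mem_univ _, ?_⟩⟩
  exact Complex.normSq_pos.mpr hij

theorem stepM {G : Type} [Group G] [TopologicalSpace G] [CompactSpace G] [IsTopologicalGroup G]
    (ρ : G →* Matrix.unitaryGroup (Fin r) ℂ) (hρ : Continuous ρ)
    {a b : G} (ha : a ∈ connectedComponent (1 : G)) (hb : b ∈ connectedComponent (1 : G))
    (hab : ρ (a * b) ≠ ρ (b * a)) :
    ∃ H : Subgroup G, IsClosed (H : Set G) ∧ H ≠ ⊤ ∧ ∀ g, ∃ h, h * g * h⁻¹ ∈ H := by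
  have _ : CompleteSpace (MM r) := FiniteDimensional.complete ℝ (MM r)
  let τ : MM r →ₗ[ℝ] ℝ := Complex.reLm.comp ((Matrix.traceLinearMap (Fin r) ℂ ℂ).restrictScalars ℝ)
  have hτ : ∀ x : MM r, τ x = x.trace.re := fun _ => rfl
  refine @stepC (MM r) _ _ _ _ (instContinuousStarMatrix) _ G _ _ _ ρ hρ _ (LinearMap.toContinuousLinearMap τ) ?_ ?_ _
    a b ha hb hab
  · intro x y
    change τ _ = τ _
    rw [hτ, hτ]
    exact congrArg Complex.re (Matrix.trace_mul_comm x y)
  · intro x hx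
    change 0 < τ _
    rw [hτ]
    exact tr_pos hx

end Mat

theorem step_main {G : Type} [Group G] [TopologicalSpace G] [IsTopologicalGroup G] [CompactSpace G] [T2Space G]
    {a b : G} (ha : a ∈ connectedComponent (1 : G)) (hb : b ∈ connectedComponent (1 : G))
    (hab : a * b ≠ b * a) :
    ∃ H : Subgroup G, IsClosed (H : Set G) ∧ H ≠ ⊤ ∧ ∀ g, ∃ h, h * g * h⁻¹ ∈ H := by
  obtain ⟨r, ρ, h1, h2⟩ := Pool.Agent.Y842.CX.separated_of_compact G (a * b) (b * a) hab
  exact stepM ρ h1 ha hb h2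

end Pool.Agent.V1128.TIG
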